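import Pool.Agent.H60.ACN.Targets

/-!
# Row UNI of acn_modules (helper72): the union of two disjoint families
-/

set_option autoImplicit false

namespace Pool.Agent.H72.ACN

open Pool.Agent.H60.ACN Pool.Agent.H60.W

/-- a member of `V` with the members of `W` near it -/
def ext {X : Type} [MetricSpace X] (W : Set (Set X)) (r : ℝ) (P : Set X) : Set X :=
  {x | x ∈ P ∨ ∃ Q ∈ W, x ∈ Q ∧ ∃ v ∈ P, ∃ w ∈ Q, dist v w < r}

/-- the statement with `0 ≤ D` -/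
theorem UNI0 : ∀ (X : Type) [MetricSpace X] (V W : Set (Set X)) (D d r r' : ℝ), 0 < r →
    0 ≤ d → 0 ≤ D → 2 * d + 3 * r ≤ r' → RD r' V → RD r W →
    (∀ P ∈ V, ∀ x ∈ P, ∀ y ∈ P, dist x y ≤ D) →
    (∀ P ∈ W, ∀ x ∈ P, ∀ y ∈ P, dist x y ≤ d) →
    ∃ U : Set (Set X), ⋃₀ U = ⋃₀ V ∪ ⋃₀ W ∧ RD r U ∧
      ∀ P ∈ U, ∀ x ∈ P, ∀ y ∈ P, dist x y ≤ D + 2 * d + 2 * r := by
  intro X _ V W D d r r' hr hd hD hr' hV hW hDV hDW
  -- near points
  have near : ∀ P x, x ∈ ext W r P → ∃ p ∈ P, dist x p ≤ d + r := by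
    rintro P x (hx | ⟨Q, hQ, hxQ, v, hv, w, hw, hvw⟩)
    · exact ⟨x, hx, by rw [dist_self]; linarith⟩
    · refine ⟨v, hv, ?_⟩
      have h1 := hDW Q hQ x hxQ w hw
      have h2 := dist_triangle x w v
      rw [dist_comm w v] at h2
      linarith
  refine ⟨{A | ∃ P ∈ V, A = ext W r P} ∪ {Q | Q ∈ W ∧ ∀ P ∈ V, ∀ v ∈ P, ∀ w ∈ Q, r ≤ dist v w},
    ?_, ?_, ?_⟩
  · ext x
    simp only [Set.mem_sUnion, Set.mem_union, Set.mem_setOf_eq]
    constructor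
    · rintro ⟨A, (⟨P, hP, rfl⟩ | ⟨hA, _⟩), hx⟩
      · rcases hx with hx | ⟨Q, hQ, hxQ, _⟩
        · exact Or.inl ⟨P, hP, hx⟩
        · exact Or.inr ⟨Q, hQ, hxQ⟩
      · exact Or.inr ⟨A, hA, hx⟩
    · rintro (⟨P, hP, hx⟩ | ⟨Q, hQ, hx⟩)
      · exact ⟨_, Or.inl ⟨P, hP, rfl⟩, Or.inl hx⟩
      · by_cases hf : ∀ P ∈ V, ∀ v ∈ P, ∀ w ∈ Q, r ≤ dist v w
        · exact ⟨Q, Or.inr ⟨hQ, hf⟩, hx⟩
        · push Not at hf
          obtain ⟨P, hP, v, hv, w, hw, hvw⟩ := hf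
          exact ⟨_, Or.inl ⟨P, hP, rfl⟩, Or.inr ⟨Q, hQ, hx, v, hv, w, hw, hvw⟩⟩
  · -- distances between an extended set and a far set
    have ef : ∀ P ∈ V, ∀ Q ∈ W, (∀ P ∈ V, ∀ v ∈ P, ∀ w ∈ Q, r ≤ dist v w) →
        ∀ x ∈ ext W r P, ∀ y ∈ Q, r ≤ dist x y := by
      rintro P hP Q hQ hf x (hx | ⟨Q', hQ', hxQ', v, hv, w, hw, hvw⟩) y hy
      · exact hf P hP x hx y hy
      · have hne : Q' ≠ Q := by
          rintro rfl
          exact absurd (hf P hP v hv w hw) (not_le.2 hvw)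
        exact hW Q' hQ' Q hQ hne x hxQ' y hy
    rintro A (⟨P, hP, rfl⟩ | ⟨hA, hfA⟩) B (⟨P', hP', rfl⟩ | ⟨hB, hfB⟩) hAB x hx y hy
    · have hne : P ≠ P' := by
        rintro rfl
        exact hAB rfl
      obtain ⟨p, hp, hxp⟩ := near P x hx
      obtain ⟨p', hp', hyp⟩ := near P' y hy
      have h1 := hV P hP P' hP' hne p hp p' hp'
      have h2 := dist_triangle4 p x y p'
      rw [dist_comm p x] at h2
      linarith
    · exact ef P hP B hB hfB x hx y hy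
    · rw [dist_comm]
      exact ef P' hP' A hA hfA y hy x hx
    · exact hW A hA B hB hAB x hx y hy
  · rintro A (⟨P, hP, rfl⟩ | ⟨hA, hfA⟩) x hx y hy
    · obtain ⟨p, hp, hxp⟩ := near P x hx
      obtain ⟨q, hq, hyq⟩ := near P y hy
      have h1 := hDV P hP p hp q hq
      have h2 := dist_triangle4 x p q y
      rw [dist_comm q y] at h2
      linarith
    · have h1 := hDW A hA x hx y hy
      linarith

end Pool.Agent.H72.ACN
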